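import Pool.Agent.H22.AN.TB3

/-! Row LIN of the board allh, part B: graphs are planes. -/

namespace Pool.Agent.H34.AN

open MeasureTheory Metric Set Filter Topology Pool.Agent.H87.SN Pool.Agent.H22.AN
open scoped ContDiff RealInnerProductSpace ENNReal

/-- the inner product by coordinates -/
theorem inn_sp {d : ℕ} (x y : V d) : ⟪x, y⟫ = x 0 * y 0 + x 1 * y 1 + ⟪zp x, zp y⟫ := by
  have h1 : ⟪x, y⟫ = ∑ i : Fin (d + 2), x i * y i := by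
    rw [PiLp.inner_apply]
    exact Finset.sum_congr rfl fun i _ => mul_comm _ _
  have h2 : ⟪zp x, zp y⟫ = ∑ i : Fin d, x i.succ.succ * y i.succ.succ := by
    rw [PiLp.inner_apply]
    exact Finset.sum_congr rfl fun i _ => mul_comm _ _
  rw [h1, h2, Fin.sum_univ_succ, Fin.sum_univ_succ, ← add_assoc]
  rfl

theorem lin_alg2 (A B p D0 D1 : ℝ) (hA : 0 ≤ A) (hA1 : A ≤ 1 / 64) (hB : 0 ≤ B)
    (hB1 : B ≤ 1 / 64) (hp : p ^ 2 ≤ A * B) (hq : 0 ≤ A * D0 ^ 2 + 2 * p * D0 * D1 + B * D1 ^ 2) :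
    D0 ^ 2 / (1 + A) + (D1 - p / (1 + A) * D0) ^ 2 / (1 + B - p ^ 2 / (1 + A)) ≤
        D0 ^ 2 + D1 ^ 2 ∧
      D0 ^ 2 + D1 ^ 2 ≤ 2 * (D0 ^ 2 / (1 + A) +
        (D1 - p / (1 + A) * D0) ^ 2 / (1 + B - p ^ 2 / (1 + A))) := by
  have h1 : 0 < 1 + A := by linarith
  have hΔ : 0 < (1 + A) * (1 + B) - p ^ 2 := by nlinarith
  have h2 : 1 + B - p ^ 2 / (1 + A) = ((1 + A) * (1 + B) - p ^ 2) / (1 + A) := by
    field_simp
  have h3 : D0 ^ 2 / (1 + A) + (D1 - p / (1 + A) * D0) ^ 2 / (1 + B - p ^ 2 / (1 + A)) =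
      ((1 + B) * D0 ^ 2 + (1 + A) * D1 ^ 2 - 2 * p * D0 * D1) /
        ((1 + A) * (1 + B) - p ^ 2) := by
    rw [h2]
    field_simp
    ring
  rw [h3]
  have hAB : 0 ≤ A * B := mul_nonneg hA hB
  constructor
  · rw [div_le_iff₀ hΔ]
    nlinarith [mul_nonneg (by linarith : 0 ≤ A * B - p ^ 2) (sq_nonneg D0),
      mul_nonneg (by linarith : 0 ≤ A * B - p ^ 2) (sq_nonneg D1)]
  · rw [← mul_div_assoc, le_div_iff₀ hΔ]
    have hAB1 : A * B ≤ 1 / 64 := by nlinarith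
    have hp2 : |p| ≤ 1 / 64 := by
      have : p ^ 2 ≤ (1 / 64) ^ 2 := by nlinarith
      exact abs_le_of_sq_le_sq this (by norm_num)
    have hp3 := abs_le.1 hp2
    have h4 : p * D0 * D1 ≤ 1 / 128 * (D0 ^ 2 + D1 ^ 2) := by
      nlinarith [mul_nonneg (by linarith [hp3.2] : 0 ≤ 1 / 64 - p) (sq_nonneg (D0 + D1)),
        mul_nonneg (by linarith [hp3.1] : 0 ≤ 1 / 64 + p) (sq_nonneg (D0 - D1))]
    have h5 : (1 + A) * (1 + B) - p ^ 2 ≤ 3 / 2 := by nlinarith [sq_nonneg p]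
    nlinarith [mul_nonneg (by linarith : 0 ≤ 3 / 2 - ((1 + A) * (1 + B) - p ^ 2))
      (by positivity : 0 ≤ D0 ^ 2 + D1 ^ 2), mul_nonneg hB (sq_nonneg D0),
      mul_nonneg hA (sq_nonneg D1)]

theorem pf_LIN : T_LIN := by
  intro d y0 y1 s0 s1 hs0 hs1
  let n0 : V d := WithLp.toLp 2 (Fin.cons (1 : ℝ) (Fin.cons (0 : ℝ) (fun i => -(s0 i))))
  let n1 : V d := WithLp.toLp 2 (Fin.cons (0 : ℝ) (Fin.cons (1 : ℝ) (fun i => -(s1 i))))
  let a : V d := WithLp.toLp 2 (Fin.cons y0 (Fin.cons y1 (fun _ => (0 : ℝ))))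
  have n00 : n0 0 = 1 := rfl
  have n01 : n0 1 = 0 := rfl
  have n10 : n1 0 = 0 := rfl
  have n11 : n1 1 = 1 := rfl
  have n0z : zp n0 = -s0 := rfl
  have n1z : zp n1 = -s1 := rfl
  have a0 : a 0 = y0 := rfl
  have a1 : a 1 = y1 := rfl
  have az : zp a = 0 := rfl
  obtain ⟨A, hA⟩ : ∃ A : ℝ, A = ‖s0‖ ^ 2 := ⟨_, rfl⟩
  obtain ⟨B, hB⟩ : ∃ B : ℝ, B = ‖s1‖ ^ 2 := ⟨_, rfl⟩
  obtain ⟨p, hp⟩ : ∃ p : ℝ, p = ⟪s0, s1⟫ := ⟨_, rfl⟩
  have hA0 : 0 ≤ A := by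
    rw [hA]
    positivity
  have hB0 : 0 ≤ B := by
    rw [hB]
    positivity
  have hA1 : A ≤ 1 / 64 := by
    rw [hA]
    nlinarith [norm_nonneg s0]
  have hB1 : B ≤ 1 / 64 := by
    rw [hB]
    nlinarith [norm_nonneg s1]
  have hpAB : p ^ 2 ≤ A * B := by
    rw [hp, hA, hB, ← mul_pow]
    exact sq_le_sq' (by
      have := abs_le.1 (abs_real_inner_le_norm s0 s1)
      linarith [this.1]) (real_inner_le_norm s0 s1)
  have i00 : ⟪n0, n0⟫ = 1 + A := by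
    rw [inn_sp, n00, n01, n0z, inner_neg_neg, real_inner_self_eq_norm_sq, hA]
    ring
  have i01 : ⟪n0, n1⟫ = p := by
    rw [inn_sp, n00, n01, n10, n11, n0z, n1z, inner_neg_neg, hp]
    ring
  have i11 : ⟪n1, n1⟫ = 1 + B := by
    rw [inn_sp, n10, n11, n1z, inner_neg_neg, real_inner_self_eq_norm_sq, hB]
    ring
  have h1A : 0 < 1 + A := by linarith
  have hN1 : 0 < 1 + B - p ^ 2 / (1 + A) := by
    have : p ^ 2 / (1 + A) ≤ B := by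
      rw [div_le_iff₀ h1A]
      nlinarith
    linarith
  obtain ⟨r0, hr0, hr0s⟩ : ∃ r : ℝ, 0 < r ∧ r ^ 2 = 1 + A :=
    ⟨Real.sqrt (1 + A), Real.sqrt_pos.2 h1A, Real.sq_sqrt h1A.le⟩
  obtain ⟨r1, hr1, hr1s⟩ : ∃ r : ℝ, 0 < r ∧ r ^ 2 = 1 + B - p ^ 2 / (1 + A) :=
    ⟨Real.sqrt (1 + B - p ^ 2 / (1 + A)), Real.sqrt_pos.2 hN1, Real.sq_sqrt hN1.le⟩
  obtain ⟨w, hw⟩ : ∃ w : V d, w = n1 - (p / (1 + A)) • n0 := ⟨_, rfl⟩
  have i0w : ⟪n0, w⟫ = 0 := by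
    rw [hw, inner_sub_right, inner_smul_right, i01, i00]
    field_simp
    ring
  have iww : ⟪w, w⟫ = 1 + B - p ^ 2 / (1 + A) := by
    have h2 : ⟪w, w⟫ = ⟪n1, w⟫ := by
      have h3 : ⟪w, w⟫ = ⟪n1, w⟫ - p / (1 + A) * ⟪n0, w⟫ := by
        conv_lhs => rw [hw]
        rw [inner_sub_left, real_inner_smul_left, ← hw]
      rw [h3, i0w]
      ring
    rw [h2, hw, inner_sub_right, inner_smul_right, i11, real_inner_comm, i01]
    field_simp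
  have hnorm : ∀ (v : V d) (r : ℝ), 0 < r → ⟪v, v⟫ = r ^ 2 → ‖r⁻¹ • v‖ = 1 := by
    intro v r hr hv
    rw [real_inner_self_eq_norm_sq] at hv
    have h3 : ‖v‖ = r := (pow_left_inj₀ (norm_nonneg v) hr.le two_ne_zero).1 hv
    rw [norm_smul, Real.norm_eq_abs, abs_of_pos (inv_pos.2 hr), h3, inv_mul_cancel₀ hr.ne']
  refine ⟨a, r0⁻¹ • n0, r1⁻¹ • w, ⟨hnorm n0 r0 hr0 (by rw [i00, hr0s]),
    hnorm w r1 hr1 (by rw [iww, hr1s]), ?_⟩, a0, a1, az, ?_⟩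
  · rw [real_inner_smul_left, inner_smul_right, i0w]
    ring
  · intro x
    obtain ⟨D0, hD0⟩ : ∃ D0 : ℝ, D0 = x 0 - (y0 + ⟪s0, zp x⟫) := ⟨_, rfl⟩
    obtain ⟨D1, hD1⟩ : ∃ D1 : ℝ, D1 = x 1 - (y1 + ⟪s1, zp x⟫) := ⟨_, rfl⟩
    have hz : zp (x - a) = zp x := by
      ext i
      show x i.succ.succ - 0 = x i.succ.succ
      ring
    have j0 : ⟪x - a, n0⟫ = D0 := by
      have e0 : (x - a) 0 = x 0 - y0 := rfl
      have e1 : (x - a) 1 = x 1 - y1 := rfl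
      rw [inn_sp, e0, e1, n00, n01, n0z, inner_neg_right, hz, real_inner_comm, hD0]
      ring
    have j1 : ⟪x - a, n1⟫ = D1 := by
      have e0 : (x - a) 0 = x 0 - y0 := rfl
      have e1 : (x - a) 1 = x 1 - y1 := rfl
      rw [inn_sp, e0, e1, n10, n11, n1z, inner_neg_right, hz, real_inner_comm, hD1]
      ring
    have jw : ⟪x - a, w⟫ = D1 - p / (1 + A) * D0 := by
      rw [hw, inner_sub_right, inner_smul_right, j0, j1]
    have hdl : dl a (r0⁻¹ • n0) (r1⁻¹ • w) x = D0 ^ 2 / (1 + A) +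
        (D1 - p / (1 + A) * D0) ^ 2 / (1 + B - p ^ 2 / (1 + A)) := by
      rw [dl, inner_smul_right, inner_smul_right, j0, jw, mul_pow, mul_pow, inv_pow, inv_pow,
        hr0s, hr1s]
      ring
    have hhd : hd y0 y1 s0 s1 x = D0 ^ 2 + D1 ^ 2 := by
      rw [hd, hD0, hD1]
    have hq : 0 ≤ A * D0 ^ 2 + 2 * p * D0 * D1 + B * D1 ^ 2 := by
      have h5 : 0 ≤ ⟪D0 • s0 + D1 • s1, D0 • s0 + D1 • s1⟫ := real_inner_self_nonneg
      rw [inner_add_left, inner_add_right, inner_add_right, real_inner_smul_left,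
        real_inner_smul_left, real_inner_smul_left, real_inner_smul_left, inner_smul_right,
        inner_smul_right, inner_smul_right, inner_smul_right, real_inner_self_eq_norm_sq,
        real_inner_self_eq_norm_sq, real_inner_comm s0 s1, ← hA, ← hB] at h5
      rw [hp]
      nlinarith
    rw [hdl, hhd]
    have h6 := lin_alg2 A B p D0 D1 hA0 hA1 hB0 hB1 hpAB hq
    exact ⟨by positivity, h6.1, h6.2⟩

end Pool.Agent.H34.AN
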