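import Pool.Agent.H34.AN.LIN

/-! Row NEA of the board allh, part B: a plane near the standard plane. -/

namespace Pool.Agent.H34.AN

open MeasureTheory Metric Set Filter Topology Pool.Agent.H87.SN Pool.Agent.H22.AN
open scoped ContDiff RealInnerProductSpace ENNReal

theorem bessel2 {d : ℕ} (ν₁ ν₂ X : V d) (h : ON ν₁ ν₂) : ⟪X, ν₁⟫ ^ 2 + ⟪X, ν₂⟫ ^ 2 ≤ ⟪X, X⟫ := by
  obtain ⟨h1, h2, h3⟩ := h
  have e1 : ⟪ν₁, ν₁⟫ = 1 := by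
    rw [real_inner_self_eq_norm_sq, h1]
    norm_num
  have e2 : ⟪ν₂, ν₂⟫ = 1 := by
    rw [real_inner_self_eq_norm_sq, h2]
    norm_num
  have e3 : ⟪ν₂, ν₁⟫ = 0 := by rw [real_inner_comm, h3]
  obtain ⟨p, hp⟩ : ∃ p : ℝ, p = ⟪X, ν₁⟫ := ⟨_, rfl⟩
  obtain ⟨q, hq⟩ : ∃ q : ℝ, q = ⟪X, ν₂⟫ := ⟨_, rfl⟩
  have h5 : 0 ≤ ⟪X - p • ν₁ - q • ν₂, X - p • ν₁ - q • ν₂⟫ := real_inner_self_nonneg
  have h6 : ⟪ν₁, X⟫ = p := by rw [real_inner_comm, hp]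
  have h7 : ⟪ν₂, X⟫ = q := by rw [real_inner_comm, hq]
  simp only [inner_sub_left, inner_sub_right, real_inner_smul_left, inner_smul_right, e1, e2, e3,
    h3, h6, h7, ← hp, ← hq] at h5
  rw [← hp, ← hq]
  nlinarith

/-- real arithmetic -/
theorem nea_arith (S ρ κ u1 u2 e1 e2 t : ℝ) (hS : 0 ≤ S) (hρ : 0 ≤ ρ) (hρ2 : ρ ≤ 2)
    (hκ : 0 ≤ κ) (hκ1 : 10 * κ ≤ 1) (hSS : S ^ 2 = (u1 + e1) ^ 2 + (u2 + e2) ^ 2)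
    (he1 : |e1| ≤ 3 * κ) (he2 : |e2| ≤ 3 * κ) (hu : u1 ^ 2 + u2 ^ 2 ≤ ρ ^ 2)
    (ht : t ≤ 2 * κ ^ 2) (hul : (1 - t) * ρ ^ 2 ≤ u1 ^ 2 + u2 ^ 2) :
    |S - ρ| ≤ 10 * κ := by
  have h1 : |u1| + |u2| ≤ 3 / 2 * ρ := by
    refine abs_le_of_sq_le_sq' ?_ (by positivity) |>.2
    have h2 : (|u1| + |u2|) ^ 2 ≤ 2 * (u1 ^ 2 + u2 ^ 2) := by
      rw [← sq_abs u1, ← sq_abs u2]
      nlinarith [sq_nonneg (|u1| - |u2|)]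
    nlinarith
  have h3 : |u1 * e1 + u2 * e2| ≤ 9 / 2 * κ * ρ := by
    calc |u1 * e1 + u2 * e2| ≤ |u1 * e1| + |u2 * e2| := abs_add_le _ _
      _ = |u1| * |e1| + |u2| * |e2| := by rw [abs_mul, abs_mul]
      _ ≤ |u1| * (3 * κ) + |u2| * (3 * κ) := add_le_add
        (mul_le_mul_of_nonneg_left he1 (abs_nonneg _))
        (mul_le_mul_of_nonneg_left he2 (abs_nonneg _))
      _ = (|u1| + |u2|) * (3 * κ) := by ring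
      _ ≤ 3 / 2 * ρ * (3 * κ) := mul_le_mul_of_nonneg_right h1 (by positivity)
      _ = 9 / 2 * κ * ρ := by ring
  have h4 := abs_le.1 h3
  have h5 : e1 ^ 2 ≤ 9 * κ ^ 2 := by
    rw [← sq_abs]
    nlinarith [abs_nonneg e1]
  have h6 : e2 ^ 2 ≤ 9 * κ ^ 2 := by
    rw [← sq_abs]
    nlinarith [abs_nonneg e2]
  rw [abs_le]
  constructor
  · by_cases h7 : ρ ≤ 10 * κ
    · linarith
    · have h7' : 10 * κ < ρ := not_le.1 h7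
      have h8 : (ρ - 10 * κ) ^ 2 ≤ S ^ 2 := by
        have h9 : S ^ 2 ≥ (1 - 2 * κ ^ 2) * ρ ^ 2 - 9 * κ * ρ := by
          rw [hSS]
          nlinarith [sq_nonneg e1, sq_nonneg e2, mul_nonneg (by linarith : 0 ≤ 2 * κ ^ 2 - t)
            (sq_nonneg ρ)]
        have h10 : 2 * κ ^ 2 * ρ ^ 2 ≤ 4 * κ ^ 2 * ρ := by
          nlinarith [mul_nonneg (by positivity : 0 ≤ κ ^ 2 * ρ) (by linarith : 0 ≤ 2 - ρ)]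
        nlinarith [mul_nonneg hκ (by linarith : 0 ≤ ρ - 10 * κ), mul_nonneg (mul_nonneg hκ hρ)
          (by linarith : 0 ≤ 1 - 10 * κ)]
      have h11 := abs_le_of_sq_le_sq' h8 hS
      linarith [h11.2]
  · have h8 : S ^ 2 ≤ (ρ + 10 * κ) ^ 2 := by
      rw [hSS]
      nlinarith [mul_nonneg hκ hρ, sq_nonneg κ]
    have h11 := abs_le_of_sq_le_sq' h8 (by positivity)
    linarith [h11.2]

theorem pf_NEA : T_NEA := by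
  intro d
  refine ⟨10, by norm_num, ?_⟩
  intro a ν₁ ν₂ κ hON hκ hκ1 hz1 hz2 ha1 ha2 x hx
  obtain ⟨hn1, hn2, h12⟩ := hON
  have hx2 : ‖x‖ < 2 := by
    rw [mem_ball, dist_zero_right] at hx
    exact hx
  have hxx : ‖x‖ ^ 2 = x 0 ^ 2 + x 1 ^ 2 + ‖zp x‖ ^ 2 := by
    rw [← real_inner_self_eq_norm_sq, inn_sp, real_inner_self_eq_norm_sq]
    ring
  have hρ0 : 0 ≤ rho x := Real.sqrt_nonneg _
  have hρs : rho x ^ 2 = x 0 ^ 2 + x 1 ^ 2 := Real.sq_sqrt (by positivity)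
  have hρ2 : rho x ≤ 2 := by
    have : rho x ^ 2 ≤ 2 ^ 2 := by
      rw [hρs]
      nlinarith [norm_nonneg x, sq_nonneg ‖zp x‖]
    exact (abs_le_of_sq_le_sq' this (by norm_num)).2
  have hzx : ‖zp x‖ ≤ 2 := by
    have : ‖zp x‖ ^ 2 ≤ 2 ^ 2 := by nlinarith [norm_nonneg x, sq_nonneg (x 0), sq_nonneg (x 1)]
    exact (abs_le_of_sq_le_sq' this (by norm_num)).2
  have herr : ∀ ν : V d, ‖zp ν‖ ≤ κ → |⟪a, ν⟫| ≤ κ → |⟪zp x, zp ν⟫ - ⟪a, ν⟫| ≤ 3 * κ := by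
    intro ν h1 h2
    have h3 : |⟪zp x, zp ν⟫| ≤ 2 * κ :=
      (abs_real_inner_le_norm _ _).trans (mul_le_mul hzx h1 (norm_nonneg _) (by norm_num))
    have h4 := abs_sub (⟪zp x, zp ν⟫) (⟪a, ν⟫)
    linarith
  have hin : ∀ ν : V d, ⟪x - a, ν⟫ = (x 0 * ν 0 + x 1 * ν 1) + (⟪zp x, zp ν⟫ - ⟪a, ν⟫) := by
    intro ν
    rw [inner_sub_left, inn_sp x ν]
    ring
  let X : V d := WithLp.toLp 2 (Fin.cons (x 0) (Fin.cons (x 1) (fun _ => (0 : ℝ))))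
  let Y : V d := WithLp.toLp 2 (Fin.cons (x 1) (Fin.cons (-(x 0)) (fun _ => (0 : ℝ))))
  have X0 : X 0 = x 0 := rfl
  have X1 : X 1 = x 1 := rfl
  have Xz : zp X = 0 := rfl
  have Y0 : Y 0 = x 1 := rfl
  have Y1 : Y 1 = -(x 0) := rfl
  have Yz : zp Y = 0 := rfl
  have b1 := bessel2 ν₁ ν₂ X ⟨hn1, hn2, h12⟩
  have b2 := bessel2 ν₁ ν₂ Y ⟨hn1, hn2, h12⟩
  rw [inn_sp X ν₁, inn_sp X ν₂, inn_sp X X, X0, X1, Xz, inner_zero_left, inner_zero_left,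
    inner_zero_left] at b1
  rw [inn_sp Y ν₁, inn_sp Y ν₂, inn_sp Y Y, Y0, Y1, Yz, inner_zero_left, inner_zero_left,
    inner_zero_left] at b2
  have hν : ∀ ν : V d, ‖ν‖ = 1 → ν 0 ^ 2 + ν 1 ^ 2 = 1 - ‖zp ν‖ ^ 2 := by
    intro ν h
    have h1 : ‖ν‖ ^ 2 = ν 0 ^ 2 + ν 1 ^ 2 + ‖zp ν‖ ^ 2 := by
      rw [← real_inner_self_eq_norm_sq, inn_sp, real_inner_self_eq_norm_sq]
      ring
    rw [h] at h1
    linarith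
  have hν1 := hν ν₁ hn1
  have hν2 := hν ν₂ hn2
  refine nea_arith (Real.sqrt (dl a ν₁ ν₂ x)) (rho x) κ (x 0 * ν₁ 0 + x 1 * ν₁ 1)
    (x 0 * ν₂ 0 + x 1 * ν₂ 1) (⟪zp x, zp ν₁⟫ - ⟪a, ν₁⟫) (⟪zp x, zp ν₂⟫ - ⟪a, ν₂⟫)
    (‖zp ν₁‖ ^ 2 + ‖zp ν₂‖ ^ 2) (Real.sqrt_nonneg _) hρ0 hρ2 hκ hκ1 ?_ (herr ν₁ hz1 ha1)
    (herr ν₂ hz2 ha2) ?_ ?_ ?_
  · rw [Real.sq_sqrt (by
      rw [dl]
      positivity), dl, hin, hin]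
  · rw [hρs]
    linarith
  · nlinarith [norm_nonneg (zp ν₁), norm_nonneg (zp ν₂)]
  · rw [hρs]
    have h8 : (x 0 * ν₁ 0 + x 1 * ν₁ 1) ^ 2 + (x 1 * ν₁ 0 + -(x 0) * ν₁ 1) ^ 2 =
        (x 0 ^ 2 + x 1 ^ 2) * (1 - ‖zp ν₁‖ ^ 2) := by
      rw [← hν1]
      ring
    have h9 : (x 0 * ν₂ 0 + x 1 * ν₂ 1) ^ 2 + (x 1 * ν₂ 0 + -(x 0) * ν₂ 1) ^ 2 =
        (x 0 ^ 2 + x 1 ^ 2) * (1 - ‖zp ν₂‖ ^ 2) := by
      rw [← hν2]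
      ring
    nlinarith

end Pool.Agent.H34.AN
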