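import Pool.Agent.H80.AN.TargetsA

/-! Row PQB of the board allh: the derivative in the direction of the difference of two good points. -/

namespace Pool.Agent.H34.AN

open MeasureTheory Metric Set Filter Topology Pool.Agent.H87.SN Pool.Agent.H22.AN
open scoped ContDiff RealInnerProductSpace ENNReal

theorem pf_PQB (hMUF : T_MUF) (hMNT : T_MNT) (hLA3 : Pool.Agent.H87.SN.T_LA3) : T_PQB := by
  intro d m Λ G hG hΛ K p p' s om hK hs hB hB' hpp hd hd'
  obtain ⟨r, hr⟩ : ∃ r : ℝ, r = s / 2 ^ K := ⟨_, rfl⟩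
  have h2K : (2 : ℝ) ≤ 2 ^ K := by
    calc (2 : ℝ) = 2 ^ 1 := (pow_one 2).symm
      _ ≤ 2 ^ K := pow_le_pow_right₀ (by norm_num) hK
  have hr0 : 0 < r := by
    rw [hr]
    positivity
  have hrs : r < s := by
    rw [hr]
    exact div_lt_self hs (by linarith)
  have hrd : r ^ d = s ^ d * ((1 / 2) ^ K) ^ d := by
    rw [hr, ← mul_pow]
    congr 1
    rw [one_div_pow]
    ring
  have hBr : ball p r ⊆ ball 0 2 := (ball_subset_ball hrs.le).trans hB
  have hBr' : ball p' r ⊆ ball 0 2 := (ball_subset_ball hrs.le).trans hB'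
  obtain ⟨i1, m1⟩ := hMNT d m G hG.memG hG.stat p r s hr0 hrs hB
  obtain ⟨i2, m2⟩ := hMNT d m G hG.memG hG.stat p' r s hr0 hrs hB'
  obtain ⟨-, -, -, hN, -, -⟩ := hMUF d m G hG.memG
  obtain ⟨n1, e1⟩ := hN (ball p r) measurableSet_ball hBr
  obtain ⟨n2, e2⟩ := hN (ball p' r) measurableSet_ball hBr'
  have den1 := hG.den p r hr0 hBr
  have den2 := hG.den p' r hr0 hBr'
  rw [e1] at den1
  rw [e2] at den2
  unfold dr at hd hd'
  rw [← hr] at hd hd'
  obtain ⟨A, hA⟩ : ∃ A : Set (V d), A = ball p s \ ball p r := ⟨_, rfl⟩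
  obtain ⟨A', hA'⟩ : ∃ A' : Set (V d), A' = ball p' s \ ball p' r := ⟨_, rfl⟩
  have mA : MeasurableSet A := by
    rw [hA]
    exact measurableSet_ball.diff measurableSet_ball
  have mA' : MeasurableSet A' := by
    rw [hA']
    exact measurableSet_ball.diff measurableSet_ball
  rw [← hA] at i1 m1
  rw [← hA'] at i2 m2
  obtain ⟨F1, hF1⟩ : ∃ F1 : V d → ℝ, F1 = fun y => (‖y - p‖ ^ (d + 2))⁻¹ * ‖G y (y - p)‖ ^ 2 :=
    ⟨_, rfl⟩
  obtain ⟨F2, hF2⟩ : ∃ F2 : V d → ℝ, F2 = fun y => (‖y - p'‖ ^ (d + 2))⁻¹ * ‖G y (y - p')‖ ^ 2 :=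
    ⟨_, rfl⟩
  obtain ⟨N, hNd⟩ : ∃ N : V d → ℝ, N = fun y => nsq (G y) := ⟨_, rfl⟩
  rw [← hF1] at i1 m1
  rw [← hF2] at i2 m2
  rw [← hNd] at n1 n2 den1 den2
  have F1n : ∀ y, 0 ≤ F1 y := fun y => by
    rw [hF1]
    positivity
  have F2n : ∀ y, 0 ≤ F2 y := fun y => by
    rw [hF2]
    positivity
  have Nn : ∀ y, 0 ≤ N y := fun y => by
    rw [hNd]
    exact Finset.sum_nonneg fun i _ => by positivity
  obtain ⟨g, hg⟩ : ∃ g : V d → ℝ, g = fun y => 2 * s ^ (d + 2) * (A.indicator F1 y +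
      A'.indicator F2 y) + ‖p' - p‖ ^ 2 * ((ball p r).indicator N y +
      (ball p' r).indicator N y) := ⟨_, rfl⟩
  have a1 : Integrable (A.indicator F1) := i1.integrable_indicator mA
  have a2 : Integrable (A'.indicator F2) := i2.integrable_indicator mA'
  have a3 : Integrable ((ball p r).indicator N) := n1.integrable_indicator measurableSet_ball
  have a4 : Integrable ((ball p' r).indicator N) := n2.integrable_indicator measurableSet_ball
  have c1 : ∀ y, 0 ≤ A.indicator F1 y := fun y => indicator_nonneg (fun z _ => F1n z) y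
  have c2 : ∀ y, 0 ≤ A'.indicator F2 y := fun y => indicator_nonneg (fun z _ => F2n z) y
  have c3 : ∀ y, 0 ≤ (ball p r).indicator N y := fun y => indicator_nonneg (fun z _ => Nn z) y
  have c4 : ∀ y, 0 ≤ (ball p' r).indicator N y := fun y => indicator_nonneg (fun z _ => Nn z) y
  have gi : Integrable g := by
    rw [hg]
    exact ((a1.add a2).const_mul _).add ((a3.add a4).const_mul _)
  have gn : ∀ y, 0 ≤ g y := fun y => by
    have h1 := c1 y
    have h2 := c2 y
    have h3 := c3 y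
    have h4 := c4 y
    rw [hg]
    positivity
  have hpw : ∀ y ∈ ball p (7 / 8 * s), ‖G y (p' - p)‖ ^ 2 ≤ g y := by
    intro y hy
    have h1 := c1 y
    have h2 := c2 y
    have h3 := c3 y
    have h4 := c4 y
    have hN0 : ‖G y (p' - p)‖ ^ 2 ≤ ‖p' - p‖ ^ 2 * N y := by
      rw [hNd]
      exact hLA3.1 (d + 2) m (G y) (p' - p)
    have hv : 0 ≤ ‖p' - p‖ ^ 2 := by positivity
    have hs2 : 0 ≤ 2 * s ^ (d + 2) := by positivity
    by_cases hy1 : y ∈ ball p r
    · have h5 : (ball p r).indicator N y = N y := indicator_of_mem hy1 N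
      rw [hg]
      show _ ≤ 2 * s ^ (d + 2) * (A.indicator F1 y + A'.indicator F2 y) +
        ‖p' - p‖ ^ 2 * ((ball p r).indicator N y + (ball p' r).indicator N y)
      rw [h5]
      nlinarith [mul_nonneg hs2 (add_nonneg h1 h2), mul_nonneg hv h4]
    by_cases hy2 : y ∈ ball p' r
    · have h5 : (ball p' r).indicator N y = N y := indicator_of_mem hy2 N
      rw [hg]
      show _ ≤ 2 * s ^ (d + 2) * (A.indicator F1 y + A'.indicator F2 y) +
        ‖p' - p‖ ^ 2 * ((ball p r).indicator N y + (ball p' r).indicator N y)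
      rw [h5]
      nlinarith [mul_nonneg hs2 (add_nonneg h1 h2), mul_nonneg hv h3]
    have hyp : ‖y - p‖ < 7 / 8 * s := by
      rw [← dist_eq_norm]
      exact hy
    have hyp1 : ‖y - p‖ < s := by linarith
    have hyp2 : ‖y - p'‖ < s := by
      have : y - p' = (y - p) - (p' - p) := by abel
      rw [this]
      have := norm_sub_le (y - p) (p' - p)
      linarith
    have hyA : y ∈ A := by
      rw [hA]
      refine ⟨?_, hy1⟩
      rw [mem_ball, dist_eq_norm]
      exact hyp1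
    have hyA' : y ∈ A' := by
      rw [hA']
      refine ⟨?_, hy2⟩
      rw [mem_ball, dist_eq_norm]
      exact hyp2
    have hq1 : r ≤ ‖y - p‖ := by
      rw [mem_ball, dist_eq_norm] at hy1
      exact not_lt.1 hy1
    have hq2 : r ≤ ‖y - p'‖ := by
      rw [mem_ball, dist_eq_norm] at hy2
      exact not_lt.1 hy2
    have key : ∀ q : V d, r ≤ ‖y - q‖ → ‖y - q‖ < s →
        ‖G y (y - q)‖ ^ 2 ≤ s ^ (d + 2) * ((‖y - q‖ ^ (d + 2))⁻¹ * ‖G y (y - q)‖ ^ 2) := by
      intro q hq hqs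
      have h0 : 0 < ‖y - q‖ ^ (d + 2) := pow_pos (lt_of_lt_of_le hr0 hq) _
      have h6 : ‖y - q‖ ^ (d + 2) ≤ s ^ (d + 2) := pow_le_pow_left₀ (norm_nonneg _) hqs.le _
      have h7 : 1 ≤ s ^ (d + 2) * (‖y - q‖ ^ (d + 2))⁻¹ := by
        rw [← div_eq_mul_inv, le_div_iff₀ h0]
        linarith
      have h8 : 0 ≤ ‖G y (y - q)‖ ^ 2 := by positivity
      nlinarith [mul_le_mul_of_nonneg_right h7 h8]
    have k1 := key p hq1 hyp1
    have k2 := key p' hq2 hyp2
    have h5 : A.indicator F1 y = F1 y := indicator_of_mem hyA F1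
    have h6 : A'.indicator F2 y = F2 y := indicator_of_mem hyA' F2
    have h7 : G y (p' - p) = G y (y - p) - G y (y - p') := by
      rw [← map_sub]
      congr 1
      abel
    have h8 : ‖G y (p' - p)‖ ^ 2 ≤ 2 * ‖G y (y - p)‖ ^ 2 + 2 * ‖G y (y - p')‖ ^ 2 := by
      rw [h7]
      have h9 := norm_sub_le (G y (y - p)) (G y (y - p'))
      have h10 := norm_nonneg (G y (y - p) - G y (y - p'))
      nlinarith [sq_nonneg (‖G y (y - p)‖ - ‖G y (y - p')‖)]
    rw [hg]
    show _ ≤ 2 * s ^ (d + 2) * (A.indicator F1 y + A'.indicator F2 y) +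
        ‖p' - p‖ ^ 2 * ((ball p r).indicator N y + (ball p' r).indicator N y)
    rw [h5, h6, hF1, hF2]
    show _ ≤ 2 * s ^ (d + 2) * ((‖y - p‖ ^ (d + 2))⁻¹ * ‖G y (y - p)‖ ^ 2 +
      (‖y - p'‖ ^ (d + 2))⁻¹ * ‖G y (y - p')‖ ^ 2) +
        ‖p' - p‖ ^ 2 * ((ball p r).indicator N y + (ball p' r).indicator N y)
    nlinarith [mul_nonneg hv (add_nonneg h3 h4)]
  have step1 : ∫ x in ball p (7 / 8 * s), ‖G x (p' - p)‖ ^ 2 ≤ ∫ x in ball p (7 / 8 * s), g x := by
    refine integral_mono_of_nonneg (Eventually.of_forall fun x => by positivity)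
      gi.integrableOn ?_
    exact (ae_restrict_iff' measurableSet_ball).2 (Eventually.of_forall hpw)
  have step2 : ∫ x in ball p (7 / 8 * s), g x ≤ ∫ x, g x :=
    setIntegral_le_integral gi (Eventually.of_forall gn)
  have step3 : ∫ x, g x = 2 * s ^ (d + 2) * ((∫ x in A, F1 x) + ∫ x in A', F2 x) +
      ‖p' - p‖ ^ 2 * ((∫ x in ball p r, N x) + ∫ x in ball p' r, N x) := by
    have a5 : Integrable (fun y => A.indicator F1 y + A'.indicator F2 y) := a1.add a2
    have a6 : Integrable (fun y => (ball p r).indicator N y + (ball p' r).indicator N y) :=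
      a3.add a4
    have e5 := integral_add (a5.const_mul (2 * s ^ (d + 2))) (a6.const_mul (‖p' - p‖ ^ 2))
    rw [integral_const_mul, integral_const_mul, integral_add a1 a2, integral_add a3 a4,
      integral_indicator mA, integral_indicator mA', integral_indicator measurableSet_ball,
      integral_indicator measurableSet_ball] at e5
    rw [hg]
    exact e5
  have hv2 : ‖p' - p‖ ^ 2 ≤ (s / 32) ^ 2 := pow_le_pow_left₀ (norm_nonneg _) hpp 2
  have hsum : (∫ x in ball p r, N x) + ∫ x in ball p' r, N x ≤ 2 * (Λ * r ^ d) := by linarith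
  have hsn : 0 ≤ (∫ x in ball p r, N x) + ∫ x in ball p' r, N x :=
    add_nonneg (setIntegral_nonneg measurableSet_ball fun x _ => Nn x)
      (setIntegral_nonneg measurableSet_ball fun x _ => Nn x)
  have hF : (∫ x in A, F1 x) + ∫ x in A', F2 x ≤ om := by linarith
  have hsd : 0 < s ^ (d + 2) := by positivity
  have u1 : 2 * s ^ (d + 2) * ((∫ x in A, F1 x) + ∫ x in A', F2 x) ≤ 2 * s ^ (d + 2) * om :=
    mul_le_mul_of_nonneg_left hF (by positivity)
  have u2 : ‖p' - p‖ ^ 2 * ((∫ x in ball p r, N x) + ∫ x in ball p' r, N x) ≤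
      (s / 32) ^ 2 * (2 * (Λ * r ^ d)) :=
    mul_le_mul hv2 hsum hsn (by positivity)
  have u3 : (s / 32) ^ 2 * (2 * (Λ * r ^ d)) ≤ s ^ (d + 2) * (Λ * ((1 / 2) ^ K) ^ d) := by
    rw [hrd, pow_add]
    have h9 : 0 ≤ s ^ d * s ^ 2 * (Λ * ((1 / 2) ^ K) ^ d) := by positivity
    nlinarith
  calc ∫ x in ball p (7 / 8 * s), ‖G x (p' - p)‖ ^ 2 ≤ ∫ x, g x := step1.trans step2
    _ ≤ s ^ (d + 2) * (2 * om + Λ * ((1 / 2) ^ K) ^ d) := by
      rw [step3]
      linarith

end Pool.Agent.H34.AN
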